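import Mathlib
import Pool.Agent.T6.H58.BoxNonA
import Pool.Agent.T6.H58.OnlOne
import Pool.Agent.T6.H58.NoLoc

/-!
For `1 ≤ p < ∞` and any nonzero coefficient space, the `p`-operator norm localization property implies
Yu's property A for all bounded geometry metric spaces if and only if `p ≠ 1`.
-/

set_option autoImplicit false

open MeasureTheory
open scoped ENNReal

namespace Pool.Agent.Results.MP_e081a1_an.ExactlyAboveOne

/-- bounded geometry: the balls of each radius are finite with uniformly bounded cardinality -/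
def BoundedGeometry (X : Type) [MetricSpace X] : Prop :=
  ∀ R : ℝ, 0 < R → ∃ N : ℕ, ∀ x : X, (Metric.ball x R).Finite ∧ (Metric.ball x R).ncard ≤ N

/-- `g` in `L^p(ν; E)` vanishes a.e. off the set `U` -/
def SupportedIn {X : Type} [MetricSpace X] [MeasurableSpace X] {E : Type}
    [NormedAddCommGroup E] {p : ℝ≥0∞} {ν : Measure X} (g : Lp E p ν) (U : Set X) : Prop :=
  ∀ᵐ z ∂ν, z ∉ U → g z = 0

/-- the operator `T` on `L^p(ν; E)` has propagation at most `r`: each pair `(x, y)` at distance more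
than `r` has open neighbourhoods `U`, `V` with `χ_V T χ_U = 0` -/
def PropagationLE {X : Type} [MetricSpace X] [MeasurableSpace X] {E : Type}
    [NormedAddCommGroup E] {p : ℝ≥0∞} {ν : Measure X} (T : Lp E p ν → Lp E p ν) (r : ℕ) : Prop :=
  ∀ x y : X, (r : ℝ) < dist x y → ∃ U V : Set X, IsOpen U ∧ IsOpen V ∧ x ∈ U ∧ y ∈ V ∧
    ∀ g : Lp E p ν, SupportedIn g U → SupportedIn (T g) Vᶜ

/-- `ξ` is nonzero and vanishes a.e. off a set of diameter at most `D` -/
def LocalizedLE {X : Type} [MetricSpace X] [MeasurableSpace X] {E : Type}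
    [NormedAddCommGroup E] {p : ℝ≥0∞} {ν : Measure X} (ξ : Lp E p ν) (D : ℝ) : Prop :=
  ξ ≠ 0 ∧ ∃ S : Set X, (∀ a ∈ S, ∀ b ∈ S, dist a b ≤ D) ∧ SupportedIn ξ S

/-- every bounded operator `T` on `V` with `P T` almost attains its norm, up to the factor `c`, at a
vector `ξ` with `Q ξ` -/
def Norms (V : Type) [NormedAddCommGroup V] [NormedSpace ℝ V] (c : ℝ) (P : (V → V) → Prop)
    (Q : V → Prop) : Prop :=
  ∀ T : V →L[ℝ] V, P T → ∃ ξ : V, Q ξ ∧ c * ‖T‖ * ‖ξ‖ ≤ ‖T ξ‖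

/-- the `p`-operator norm localization property with coefficients in `E` -/
def ONL (p : ℝ≥0∞) [Fact (1 ≤ p)] (E : Type) [NormedAddCommGroup E] [NormedSpace ℝ E]
    (X : Type) [MetricSpace X] [MeasurableSpace X] : Prop :=
  ∃ c : ℝ, 0 < c ∧ c ≤ 1 ∧ ∃ f : ℕ → ℕ, Monotone f ∧
    ∀ (ν : Measure X) [IsLocallyFiniteMeasure ν], ν ≠ 0 → ∀ r : ℕ,
      Norms (Lp E p ν) c (fun T => PropagationLE T r) (fun ξ => LocalizedLE ξ (f r))

/-- Yu's property A -/
def PropertyA (X : Type) [MetricSpace X] : Prop :=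
  ∀ R : ℝ, 0 < R → ∀ ε : ℝ, 0 < ε → ∃ S : ℝ, ∃ A : X → Set (X × ℕ),
    (∀ x, (A x).Finite) ∧ (∀ x, (x, 0) ∈ A x) ∧ (∀ x, ∀ w ∈ A x, dist w.1 x ≤ S) ∧
    ∀ x y, dist x y < R → ((symmDiff (A x) (A y)).ncard : ℝ) < ε * ((A x ∩ A y).ncard : ℝ)

/-- For `1 ≤ p < ∞` and every nonzero real normed space `E`: the `p`-operator norm localization
property with coefficients in `E` implies property A for all metric spaces of bounded geometry if
and only if `p ≠ 1`. -/
theorem result (p : ℝ≥0∞) [Fact (1 ≤ p)] (hp : p ≠ ⊤) (E : Type) [NormedAddCommGroup E]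
    [NormedSpace ℝ E] [Nontrivial E] :
    (∀ (X : Type) [MetricSpace X] [MeasurableSpace X] [BorelSpace X],
      BoundedGeometry X → ONL p E X → PropertyA X) ↔ p ≠ 1 := by
  constructor
  · rintro h rfl
    have h1 := h Pool.Agent.T6.H58.Box.X
      (fun R _ => Pool.Agent.T6.H58.Box.bounded_geometry R) ?_ 2 (by norm_num) (1 / 8) (by norm_num)
    · obtain ⟨S, A, hfin, h0, hS, hA⟩ := h1
      exact Pool.Agent.T6.H58.Box.not_property_A S A hfin h0 hS hA
    · refine ⟨1 / 2, by norm_num, by norm_num, fun _ => 0, monotone_const, ?_⟩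
      intro ν _ hν r T _
      obtain ⟨ξ, hξ, ⟨x, hx⟩, hT⟩ := Pool.Agent.T6.H58.OnlOne.onl_one (E := E) ν hν T
      refine ⟨ξ, ⟨hξ, {x}, ?_, hx⟩, hT⟩
      intro a ha b hb
      rw [Set.mem_singleton_iff] at ha hb
      rw [ha, hb, dist_self]
      simp
  · rintro hp1 X _ _ _ hbg ⟨c, hc0, hc1, f, hf, h⟩
    refine Pool.Agent.T6.H58.NoLoc.onl_imp_A (E := E) (p := p) hbg hp hp1 ⟨c, hc0, hc1, f, hf, ?_⟩
    intro ν _ hν r T hT
    have hprop : PropagationLE T r := by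
      intro x y hxy
      obtain ⟨U, V, hU, hV, hx, hy, hUV⟩ := hT x y hxy
      refine ⟨U, V, hU, hV, hx, hy, fun g hg => ?_⟩
      filter_upwards [hUV g hg] with z hz hzV
      exact hz (by simpa using hzV)
    obtain ⟨ξ, ⟨hξ0, S, hS, hξ⟩, hn⟩ := h ν hν r T hprop
    exact ⟨ξ, hξ0, ⟨S, hS, hξ⟩, hn⟩

end Pool.Agent.Results.MP_e081a1_an.ExactlyAboveOne
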